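import Pool.Agent.W76.MO.Defs

/-!
# MP_768c9c_nt: completely multiplicative functions with sum zero.  The notions of the result.
-/

set_option autoImplicit false

namespace Pool.Agent.TH927.CM

open Finset Filter Topology
open Pool.Agent.W76.MO

/-- `f` (only its values at `n ≥ 1` matter) is a CMO function: completely multiplicative, and
`∑ f(n)` converges to `0` -/
structure IsCMO (f : ℕ → ℂ) : Prop where
  one : f 1 = 1
  mul : ∀ m n : ℕ, 1 ≤ m → 1 ≤ n → f (m * n) = f m * f n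
  sum_zero : Tendsto (fun N : ℕ => ∑ n ∈ Icc 1 N, f n) atTop (𝓝 0)

/-- some CMO function has `|S_f(x)| ≤ C x^(-1/2-c)` -/
def ConclC : Prop := ∃ f : ℕ → ℂ, IsCMO f ∧ ∃ c C : ℝ, 0 < c ∧ 0 < C ∧
  ∀ x : ℝ, 1 ≤ x → ‖partialSum f x‖ ≤ C * x ^ (-(1 / 2 : ℝ) - c)

/-- task CHI: a zero of a non-principal Dirichlet L-function to the right of `1/2` -/
def T_CHI : Prop := ∀ (q : ℕ) [NeZero q] (χ : DirichletCharacter ℂ q), χ ≠ 1 →
  ∀ s : ℂ, 1 / 2 < s.re → DirichletCharacter.LFunction χ s = 0 → ConclC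

end Pool.Agent.TH927.CM
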