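import Pool.Agent.W76.MO.Stmts

/-!
# MP_768c9c_nt: completely multiplicative variant of the system of W76/MO.  Definitions and tasks.

`E : Env`, `gu`, `gh`, `g`, `gs`, `w`, `Bad`, `Host`, `HCount`, `GBounds`, `PairB` are those of
`Pool.Agent.W76.MO.Defs`; new: products over the prime factors with multiplicity, and sums over all
`R`-rough elements of a cell (not only the squarefree ones).
-/

set_option autoImplicit false

namespace Pool.Agent.TH927.CM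

open Finset Filter Topology
open scoped Classical
open Pool.Agent.W76.MO

/-- product of `v` over the prime factors of `n`, with multiplicity -/
noncomputable def mprod (v : ℕ → ℝ) (n : ℕ) : ℝ := (n.primeFactorsList.map v).prod

lemma mprod_one (v : ℕ → ℝ) : mprod v 1 = 1 := by simp [mprod]

lemma mprod_zero (v : ℕ → ℝ) : mprod v 0 = 1 := by simp [mprod]

lemma mprod_prime (v : ℕ → ℝ) {p : ℕ} (hp : p.Prime) : mprod v p = v p := by
  simp [mprod, Nat.primeFactorsList_prime hp]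

lemma mprod_mul (v : ℕ → ℝ) {m n : ℕ} (hm : m ≠ 0) (hn : n ≠ 0) :
    mprod v (m * n) = mprod v m * mprod v n := by
  unfold mprod
  have h := (Nat.perm_primeFactorsList_mul hm hn).map v
  rw [h.prod_eq, List.map_append, List.prod_append]

lemma mprod_nonneg (v : ℕ → ℝ) (hv : ∀ p, 0 ≤ v p) (n : ℕ) : 0 ≤ mprod v n := by
  unfold mprod
  apply List.prod_nonneg
  intro x hx
  obtain ⟨p, -, rfl⟩ := List.mem_map.1 hx
  exact hv p

lemma one_le_mprod (v : ℕ → ℝ) (hv : ∀ p, 1 ≤ v p) (n : ℕ) : 1 ≤ mprod v n := by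
  unfold mprod
  induction n.primeFactorsList with
  | nil => simp
  | cons a l ih =>
    rw [List.map_cons, List.prod_cons]
    nlinarith [hv a]

/-- for squarefree `n` the product has no repetitions -/
lemma mprod_sq (v : ℕ → ℝ) {n : ℕ} (hn : Squarefree n) :
    mprod v n = ∏ p ∈ n.primeFactors, v p := by
  unfold mprod
  have h := (Nat.squarefree_iff_nodup_primeFactorsList hn.ne_zero).1 hn
  rw [Nat.primeFactors, List.prod_toFinset v h]

section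
variable (E : Env)

/-- `∏_{p | n} (1 + 2 p g(p))` with multiplicity -/
noncomputable def Ec (j n : ℕ) : ℝ := mprod (fun p => 1 + 2 * (p * E.g j p)) n

/-- the `R`-rough elements of a cell -/
noncomputable def cr (R i k : ℕ) : Finset ℕ := (cell E.δ i k).filter (fun n => Rough R n)

/-- (ES) the Euler product sum is small -/
def ESumC : Prop := ∀ η : ℝ, 0 < η → ∃ R₀ : ℕ, ∀ R : ℕ, R₀ ≤ R → ∃ J : ℕ, ∀ j : ℕ, J ≤ j →
  ∀ M : ℕ, ∑ t ∈ (Icc 2 M).filter (fun t => Rough R t),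
    Ec E j t / t * (t : ℝ) ^ (-E.δ / 2) ≤ η

/-- (UP) contribution of the large control primes of the first kind -/
def UPartC : Prop := ∃ R₀ : ℕ, ∀ R : ℕ, R₀ ≤ R → ∃ J : ℕ, ∀ j : ℕ, J ≤ j → ∀ i : ℕ, j ≤ i →
  ∀ k : ℕ, k < nc E.δ i →
    ∑ n ∈ cr E R i k, ∑ p ∈ n.primeFactors.filter (fun p : ℕ => (2 : ℝ) ^ (3 / 5 * (i : ℝ)) < p),
      E.gu j p * (Ec E j (n / p) / ((n / p : ℕ) : ℝ)) ≤
        (if k ∈ E.Bad i then 0 else E.w i) + E.w i / 16

/-- (HP) contribution of the host primes `> 2^(i/20)`, with multiplicity -/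
def HPartC : Prop := ∃ R₀ : ℕ, ∀ R : ℕ, R₀ ≤ R → ∃ J : ℕ, ∀ j : ℕ, J ≤ j → ∀ i : ℕ, j ≤ i →
  ∀ k : ℕ, k < nc E.δ i →
    ∑ n ∈ cr E R i k, ∑ q ∈ n.primeFactors.filter (fun q : ℕ => (2 : ℝ) ^ (1 / 20 * (i : ℝ)) < q),
      (n.factorization q : ℝ) * (E.gh j q * (Ec E j (n / q) / ((n / q : ℕ) : ℝ))) ≤
        (if k ∈ E.Bad i then E.w i else 0) + E.w i / 16

/-- (SP) contribution of the small control primes -/
def SPartC : Prop := ∃ J : ℕ, ∀ j : ℕ, J ≤ j → ∀ i : ℕ, j ≤ i → ∀ k : ℕ, k < nc E.δ i →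
    ∑ n ∈ cell E.δ i k, (1 / (n : ℝ)) * mprod (fun p => 1 + 2 * (p * E.gs j i p)) n ≤ E.w i / 16

/-- the part of the host sum which comes from the bad cell `(i', k')`, restricted to pairs `(n₁, n)`
satisfying `P`; here `n₁` runs through the hosts of `(i', k')`, `n` through the cell `(i, k)` -/
noncomputable def HTc (j R i k i' k' : ℕ) (P : ℕ → ℕ → Prop) : ℝ :=
  ∑ u ∈ ((E.Host j i' k') ×ˢ (cr E R i k)).filter (fun u : ℕ × ℕ =>
      lp u.1 ∣ u.2 ∧ (2 : ℝ) ^ (1 / 20 * (i : ℝ)) < lp u.1 ∧ P u.1 u.2),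
    (u.2.factorization (lp u.1) : ℝ) *
      (E.w i' / ((E.Host j i' k').card : ℝ) * ((u.1 : ℝ) / u.2) * Ec E j (u.2 / lp u.1))

/-- (H1) hosts of cells of scale `< (1-τ) i` -/
def HP1c : Prop := ∃ J : ℕ, ∀ j : ℕ, J ≤ j → ∀ R i k : ℕ, j ≤ i → k < nc E.δ i →
  ∑ i' ∈ (range (2 * i + 3)).filter (fun i' : ℕ => j ≤ i' ∧ (i' : ℝ) < (1 - E.τ) * i),
    ∑ k' ∈ E.Bad i', HTc E j R i k i' k' (fun _ _ => True) ≤ E.w i / 64

/-- (HB) hosts of cells of scale `≥ (1-τ) i`, pairs with `n₁ ∤ n` -/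
def HPBc : Prop := ∃ J : ℕ, ∀ j : ℕ, J ≤ j → ∀ R i k : ℕ, j ≤ i → k < nc E.δ i →
  ∑ i' ∈ (range (2 * i + 3)).filter (fun i' : ℕ => j ≤ i' ∧ (1 - E.τ) * i ≤ (i' : ℝ)),
    ∑ k' ∈ E.Bad i', HTc E j R i k i' k' (fun a b => ¬ a ∣ b) ≤ E.w i / 64

/-- (HA) hosts of cells of scale `≥ (1-τ) i`, pairs with `n₁ ∣ n` -/
def HPAc : Prop := ∃ R₀ : ℕ, ∀ R : ℕ, R₀ ≤ R → ∃ J : ℕ, ∀ j : ℕ, J ≤ j → ∀ i k : ℕ, j ≤ i →
  k < nc E.δ i →
  ∑ i' ∈ (range (2 * i + 3)).filter (fun i' : ℕ => j ≤ i' ∧ (1 - E.τ) * i ≤ (i' : ℝ)),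
    ∑ k' ∈ E.Bad i', HTc E j R i k i' k' (fun a b => a ∣ b) ≤
      (if k ∈ E.Bad i then E.w i else 0) + E.w i / 64

end

/-! ### the tasks -/

/-- task ESc (model: `Pool.Agent.W280.MO.T_ES_proof`) -/
def T_ESc : Prop := ∀ E : Env, E.GBounds → ESumC E
/-- task UPc (model: `Pool.Agent.W596.MO.upart`; its lemmas `St_le`, `sum_one_le` apply as they are) -/
def T_UPc : Prop := ∀ E : Env, E.GBounds → ESumC E → UPartC E
/-- task SPc (model: `Pool.Agent.W683.MO.sp`) -/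
def T_SPc : Prop := ∀ E : Env, E.GBounds → SPartC E
/-- task H1c (model: `Pool.Agent.W640.MO.h1`) -/
def T_H1c : Prop := ∀ E : Env, E.HCount → E.GBounds → HP1c E
/-- task HBc (model: `Pool.Agent.W356.MO.HB`) -/
def T_HBc : Prop := ∀ E : Env, E.HCount → E.GBounds → Env.PairB E.τ E.δ → HPBc E
/-- task HAc (model: `Pool.Agent.W326.MO.task_HA`) -/
def T_HAc : Prop := ∀ E : Env, E.HCount → E.GBounds → ESumC E → HPAc E
/-- task HXc (model: `Pool.Agent.W356.MO.HX`) -/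
def T_HXc : Prop := ∀ E : Env, E.GBounds → HP1c E → HPAc E → HPBc E → HPartC E

end Pool.Agent.TH927.CM
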