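import Pool.Agent.TH927.CM.Defs
import Pool.Agent.TH927.CM.Goal
import Pool.Agent.TH73.J783
import Pool.Agent.TH848.J784
import Pool.Agent.TH715.J785
import Pool.Agent.TH693.J786
import Pool.Agent.TH323.J787
import Pool.Agent.TH832.J788
import Pool.Agent.TH761.J883
import Pool.Agent.TH142.J884
import Pool.Agent.TH822.J885
import Pool.Agent.W761.MO.BTR
import Pool.Agent.W613.MO.ZA
import Pool.Agent.W475.MO.GI
import Pool.Agent.W726.MO.BC
import Pool.Agent.W815.MO.CL
import Pool.Agent.W475.MO.FB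
import Pool.Agent.W565.MOFS
import Pool.Agent.W377.MO.US
import Pool.Agent.W501.MO.HC
import Pool.Agent.W683.MO.GB
import Pool.Agent.W1.MO.PB
import Pool.Agent.W161.MO.MR3
import Pool.Agent.W544.MO.Ho

/-!
# MP_768c9c_nt: the existence of the set `isU` (one input on primes in almost all short intervals)
implies that there is a CMO function with partial sums `O(x^(-1/2-c))`; RH gives this input.
-/

set_option autoImplicit false

namespace Pool.Agent.TH927.CM

open Finset
open scoped Classical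
open Pool.Agent.W76.MO

/-- every environment gives a CMO function with small partial sums -/
theorem env_concl (E : Env) : ConclC := by
  have hHC := Pool.Agent.W501.MO.hc E
  have hGB := Pool.Agent.W683.MO.gb E hHC
  have hES := Pool.Agent.TH73.J783.ES_c E hGB
  have hUP := Pool.Agent.TH848.J784.UP_c E hGB hES
  have hSP := Pool.Agent.TH761.J883.SP_c E hGB
  have hPB := Pool.Agent.W1.MO.pb E.τ E.δ E.hτ E.hτ' E.hδ E.hδ'
  have hHP := Pool.Agent.TH693.J786.HX_c E hGB (Pool.Agent.TH715.J785.H1_c E hHC hGB)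
    (Pool.Agent.TH832.J788.HA_c E hHC hGB hES) (Pool.Agent.TH323.J787.HB_c E hHC hGB hPB)
  exact Pool.Agent.TH822.J885.ASM_c E hHC hGB hUP hHP hSP

/-- the set `isU` for given parameters -/
def USetAt (τ δ : ℝ) : Prop :=
  ∃ (isU : ℕ → Prop) (CU cU : ℝ) (i₁ : ℕ), 1 ≤ CU ∧ 0 < cU ∧ 1 ≤ i₁ ∧ (∀ p, isU p → p.Prime) ∧
  (∀ i : ℕ, i₁ ≤ i → ∀ a L : ℕ, 2 ^ i ≤ a → a + L ≤ 2 ^ (i + 1) →
    (2 : ℝ) ^ (τ / 4 * i) ≤ L → (((Ioc a (a + L)).filter isU).card : ℝ) ≤ CU * L / (i : ℝ) ^ 4) ∧
  (∀ i : ℕ, i₁ ≤ i → (((range (nc δ i)).filter (fun k =>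
    (((cell δ i k).filter isU).card : ℝ) < cU * hh δ i / (i : ℝ) ^ 4)).card : ℝ) ≤
      (2 : ℝ) ^ (3 * δ * i))

theorem hosts : Hosts := Pool.Agent.W544.MO.main Pool.Agent.W761.MO.btr
  (Pool.Agent.W161.MO.midRange Pool.Agent.W565.MOFS.FS)

/-- there are absolute constants `τ, δ` for which the set `isU` suffices -/
theorem of_usetAt : ∃ τ δ₁ : ℝ, 0 < τ ∧ τ ≤ 1 / 100 ∧ 0 < δ₁ ∧ δ₁ ≤ τ / 1000 ∧
    ∀ δ : ℝ, 0 < δ → δ ≤ δ₁ → USetAt τ δ → ConclC := by
  obtain ⟨τ₀, γ₀, c, δ₀, hτ₀, hγ₀, hc, hδ₀, hhost⟩ := hosts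
  set τ : ℝ := min (min τ₀ γ₀) (1 / 100) with hτd
  have hτ : 0 < τ := lt_min (lt_min hτ₀ hγ₀) (by norm_num)
  have hτ1 : τ ≤ 1 / 100 := min_le_right _ _
  refine ⟨τ, min δ₀ (τ / 1000), hτ, hτ1, lt_min hδ₀ (by positivity), min_le_right _ _, ?_⟩
  intro δ hδ hδle hUS
  have hδ1 : δ ≤ τ / 1000 := hδle.trans (min_le_right _ _)
  obtain ⟨i₀, hi₀, hhost⟩ := hhost δ hδ (hδle.trans (min_le_left _ _))
  obtain ⟨isU, CU, cU, i₁, hCU, hcU, hi₁, hup, huu, hub⟩ := hUS
  obtain ⟨CB, hCB, i₂, hi₂, hbtr⟩ := Pool.Agent.W761.MO.btr τ (τ / 4) hτ (by positivity)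
  let E : Env :=
    { τ := τ, δ := δ, CU := CU, cU := cU, cH := c, CB := max CB 1, isU := isU
      i₁ := i₀ + i₁ + i₂
      hτ := hτ, hτ' := hτ1, hδ := hδ, hδ' := hδ1, hCU := hCU, hcU := hcU, hcH := hc
      hCB := le_max_right _ _
      hi₁ := by omega
      u_prime := hup
      u_up := fun i hi => huu i (by omega)
      u_bad := fun i hi => hub i (by omega)
      host := by
        intro i hi k hk
        have hmul := nc_mul δ hδ i
        have hlt : (k + 1) * hh δ i ≤ nc δ i * hh δ i := Nat.mul_le_mul_right _ hk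
        have h1 := hhost i (by omega) (2 ^ i + k * hh δ i) (by omega) (by
          rw [pow_succ]
          have : k * hh δ i ≤ (k + 1) * hh δ i := Nat.mul_le_mul_right _ (Nat.le_succ k)
          omega)
        refine h1.trans ?_
        have hi0 : (0 : ℝ) ≤ i := Nat.cast_nonneg i
        have hsub : (Ioc (2 ^ i + k * hh δ i) (2 ^ i + k * hh δ i + hh δ i)).filter
            (HostNum τ₀ γ₀ i) ⊆ (cell δ i k).filter (HostNum τ τ i) := by
          intro n hn
          rw [mem_filter, mem_Ioc] at hn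
          rw [mem_filter]
          refine ⟨?_, ?_⟩
          · unfold cell
            rw [mem_Ioc]
            have : (k + 1) * hh δ i = k * hh δ i + hh δ i := by ring
            omega
          · obtain ⟨m, q, h1, h2, h3, h4, h5, h6⟩ := hn.2
            refine ⟨m, q, h1, h2, ?_, h4, h5, ?_⟩
            · refine le_trans (Real.rpow_le_rpow_of_exponent_le (by norm_num) ?_) h3
              have : τ ≤ τ₀ := (min_le_left _ _).trans (min_le_left _ _)
              apply mul_le_mul_of_nonneg_right _ hi0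
              linarith
            · intro p hp hpm
              refine le_trans (Real.rpow_le_rpow_of_exponent_le (by norm_num) ?_) (h6 p hp hpm)
              have : τ ≤ γ₀ := (min_le_left _ _).trans (min_le_right _ _)
              exact mul_le_mul_of_nonneg_right this hi0
        exact_mod_cast Finset.card_le_card hsub
      btr := by
        intro i hi a L hL
        refine (hbtr i (by omega) a L hL).trans ?_
        have hi0 : (0 : ℝ) < i := by
          have : 0 < i := by omega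
          exact_mod_cast this
        gcongr
        exact le_max_left _ _ }
  exact env_concl E

/-- RH implies that there is a CMO function with partial sums `O(x^(-1/2-c))` -/
theorem rh_concl (hRH : RiemannHypothesis) : ConclC := by
  obtain ⟨τ, δ₁, hτ, hτ1, hδ₁, hδ1, h⟩ := of_usetAt
  refine h δ₁ hδ₁ le_rfl ?_
  have hFew : FewBad := Pool.Agent.W475.MO.fb
    (Pool.Agent.W726.MOBC.main Pool.Agent.W613.MO.za Pool.Agent.W475.MO.gi)
    (Pool.Agent.W815.CL.cellLow Pool.Agent.W761.MO.btr)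
  exact Pool.Agent.W377.MOUS.us Pool.Agent.W761.MO.btr hFew hRH τ δ₁ hτ hτ1 hδ₁ hδ1

end Pool.Agent.TH927.CM
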